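import Pool.Agent.Helper74.UB.Goals1

/-!
# UB-BDEX: existence of boundary darts
-/

namespace Pool.Agent.Helper94.UB

open Finset Equiv Helper28.VF
open Pool.Agent.Helper74.UB
open scoped Classical

theorem switch {P : ℕ → Prop} (h0 : P 0) : ∀ n, ¬ P n → ∃ i, P i ∧ ¬ P (i + 1) := by
  intro n
  induction n with
  | zero => intro h; exact absurd h0 h
  | succ n ih =>
    intro h
    by_cases hn : P n
    · exact ⟨n, hn, h⟩
    · exact ih hn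

/-- **BDEX.** -/
theorem bdex : StmtBdex := by
  intro D V E F _ _ _ _ M O b u w hb hu huO hw hwO
  obtain ⟨du, hdu1, hdu2⟩ := hu
  obtain ⟨dw, hdw1, hdw2⟩ := hw
  have hsc : M.σ.SameCycle dw du := (M.vt_iff dw du).mp (hdw1.trans hdu1.symm)
  obtain ⟨n, hn⟩ := hsc.exists_nat_pow_eq
  obtain ⟨i, hi1, hi2⟩ := switch (P := fun i => tg M ((M.σ ^ i) dw) ∈ O)
    (by show tg M ((M.σ ^ 0) dw) ∈ O; rw [pow_zero]; show tg M dw ∈ O; rw [hdw2]; exact hwO) n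
    (by show ¬ tg M ((M.σ ^ n) dw) ∈ O; rw [hn, hdu2]; exact huO)
  have hvt : M.vt ((M.σ ^ (i + 1)) dw) = b := by
    have : M.σ.SameCycle dw ((M.σ ^ (i + 1)) dw) := ⟨((i + 1 : ℕ) : ℤ), by rw [zpow_natCast]⟩
    rw [← (M.vt_iff dw _).mpr this]
    exact hdw1
  refine ⟨(M.σ ^ (i + 1)) dw, ?_, hvt⟩
  unfold bd
  rw [mem_filter]
  refine ⟨mem_univ _, ⟨M.α ((M.σ ^ i) dw), ?_, hi1⟩, ?_, hi2⟩
  · rw [M.fc_iff]
    refine ⟨1, ?_⟩
    rw [zpow_one, Perm.mul_apply, M.α_inv, pow_succ', Perm.mul_apply]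
  · rw [hvt]
    exact hb

end Pool.Agent.Helper94.UB
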